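import Pool.Agent.helper70.GB.SpecK
import Pool.Agent.helper65.GB.Elem

/-!
# Karoubi linearization of alternating matrices over a polynomial ring (project gb, module KL)
-/

open Matrix Polynomial

set_option linter.unusedSectionVars false

namespace GB

universe u

section KL

variable {A : Type*} [CommRing A] {ι κ κ' : Type} [Fintype ι] [DecidableEq ι] [Fintype κ]
  [DecidableEq κ] [Fintype κ'] [DecidableEq κ']

theorem KL_hyp_mul_neg : Hyp κ A * (-Hyp κ A) = 1 := by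
  unfold Hyp
  rw [Matrix.fromBlocks_neg, Matrix.fromBlocks_multiply, ← Matrix.fromBlocks_one]
  simp

theorem KL_hyp_isUnit_det : IsUnit (Hyp κ A).det := by
  rw [← Matrix.isUnit_iff_isUnit_det]
  exact ⟨⟨Hyp κ A, -Hyp κ A, KL_hyp_mul_neg, by rw [neg_mul, ← mul_neg]; exact KL_hyp_mul_neg⟩, rfl⟩

theorem KL_dsum_det (M : Matrix ι ι A) (N : Matrix κ κ A) : (dsum M N).det = M.det * N.det := by
  unfold dsum
  exact Matrix.det_fromBlocks_zero₁₂ _ _ _

theorem KL_hyp_alt : IsAlt (Hyp κ A) := by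
  constructor
  · unfold Hyp
    rw [Matrix.fromBlocks_transpose, Matrix.fromBlocks_neg]
    simp
  · rintro (i | i) <;> simp [Hyp]

theorem KL_hyp_map {A' : Type*} [CommRing A'] (f : A →+* A') : (Hyp κ A).map f = Hyp κ A' := by
  unfold Hyp
  rw [Matrix.fromBlocks_map]
  congr 1
  · ext i j; simp
  · ext i j; simp [Matrix.one_apply, apply_ite f]
  · ext i j; simp [Matrix.one_apply, apply_ite f]
  · ext i j; simp

theorem KL_dsum_map {A' : Type*} [CommRing A'] (f : A →+* A') (M : Matrix ι ι A)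
    (N : Matrix κ κ A) : (dsum M N).map f = dsum (M.map f) (N.map f) := by
  unfold dsum
  rw [Matrix.fromBlocks_map]
  congr 1 <;> (ext i j; simp)

/-- congruence by a lower triangular block matrix -/
theorem KL_congr (Φ : Matrix ι ι A) (H : Matrix κ κ A) (Y : Matrix κ ι A) :
    (fromBlocks 1 0 Y 1 : Matrix (ι ⊕ κ) (ι ⊕ κ) A)ᵀ * dsum Φ H * fromBlocks 1 0 Y 1 =
      fromBlocks (Φ + Yᵀ * (H * Y)) (Yᵀ * H) (H * Y) H := by
  unfold dsum
  rw [Matrix.fromBlocks_transpose, Matrix.fromBlocks_multiply, Matrix.fromBlocks_multiply]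
  simp [Matrix.mul_assoc]

theorem KL_hyp_mul_fromRows (P Q : Matrix κ ι A) :
    Hyp κ A * fromRows P Q = fromRows Q (-P) := by
  unfold Hyp
  rw [Matrix.fromBlocks_mul_fromRows]
  simp

theorem KL_fromRows_form (P Q : Matrix κ ι A) :
    (fromRows P Q)ᵀ * (Hyp κ A * fromRows P Q) = Pᵀ * Q - Qᵀ * P := by
  rw [KL_hyp_mul_fromRows, Matrix.transpose_fromRows, Matrix.fromCols_mul_fromRows]
  rw [Matrix.mul_neg, sub_eq_add_neg]

/-- an alternating matrix is `S - Sᵀ` -/
theorem KL_split {T : Matrix ι ι A} (hT : IsAlt T) : ∃ S : Matrix ι ι A, S - Sᵀ = T := by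
  classical
  let f := Fintype.equivFin ι
  refine ⟨Matrix.of fun i j => if f i < f j then T i j else 0, ?_⟩
  ext i j
  have h1 : T j i = -T i j := by
    have := congrFun (congrFun hT.1 i) j
    simpa using this
  simp only [Matrix.sub_apply, Matrix.transpose_apply, Matrix.of_apply]
  rcases lt_trichotomy (f i) (f j) with h | h | h
  · rw [if_pos h, if_neg (not_lt.2 h.le), sub_zero]
  · have hij : i = j := f.injective h
    subst hij
    rw [if_neg (lt_irrefl _), sub_zero, hT.2 i]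
  · rw [if_neg (not_lt.2 h.le), if_pos h, h1]
    ring

theorem KL_isAlt_map {A' : Type*} [CommRing A'] (f : A →+ A') {Φ : Matrix ι ι A} (h : IsAlt Φ) :
    IsAlt (Φ.map f) := by
  constructor
  · rw [← Matrix.transpose_map, h.1]
    ext i j; simp
  · intro i
    simp [h.2 i]

theorem KL_isAlt_blocks {Φ : Matrix ι ι A} {H : Matrix κ κ A} {Y : Matrix κ ι A} (hΦ : IsAlt Φ)
    (hH : IsAlt H) : IsAlt (fromBlocks Φ (Yᵀ * H) (H * Y) H) := by
  constructor
  · rw [Matrix.fromBlocks_transpose, Matrix.fromBlocks_neg, hΦ.1, hH.1, Matrix.transpose_mul,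
      Matrix.transpose_mul, hH.1, Matrix.transpose_transpose]
    simp
  · rintro (i | i)
    · simpa using hΦ.2 i
    · simpa using hH.2 i

end KL

section step

variable {B : Type u} [CommRing B]

/-- one step: the degree drops -/
theorem KL_step {ι : Type} [Fintype ι] [DecidableEq ι] (Φ : Matrix ι ι B[X]) (hΦ : IsAlt Φ)
    (D : ℕ) (hD : ∀ i j, (Φ i j).natDegree ≤ D + 2) :
    ∃ ε ∈ E (ι ⊕ (ι ⊕ ι)) B[X], IsAlt (εᵀ * dsum Φ (Hyp ι B[X]) * ε) ∧
      (∀ i j, ((εᵀ * dsum Φ (Hyp ι B[X]) * ε) i j).natDegree ≤ D + 1) ∧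
      (εᵀ * dsum Φ (Hyp ι B[X]) * ε).map (evalRingHom 0) =
        dsum (Φ.map (evalRingHom 0)) (Hyp ι B) := by
  classical
  let T : Matrix ι ι B := Φ.map (fun p => p.coeff (D + 2))
  have hT : IsAlt T := by
    have := KL_isAlt_map (Polynomial.lcoeff B (D + 2)).toAddMonoidHom hΦ
    exact this
  obtain ⟨S, hS⟩ := KL_split hT
  let P : Matrix ι ι B[X] := (X : B[X]) • 1
  let Q : Matrix ι ι B[X] := -((X : B[X]) ^ (D + 1) • S.map C)
  let Y : Matrix (ι ⊕ ι) ι B[X] := fromRows P Q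
  have hform : Yᵀ * (Hyp ι B[X] * Y) = -((X : B[X]) ^ (D + 2) • T.map C) := by
    rw [KL_fromRows_form]
    have h1 : Pᵀ = P := by
      simp [P]
    have h2 : Qᵀ = -((X : B[X]) ^ (D + 1) • Sᵀ.map C) := by
      simp [Q, Matrix.transpose_map]
    rw [h1, h2]
    have h3 : T.map C = S.map C - Sᵀ.map C := by
      rw [← hS]
      ext i j
      simp
    rw [h3]
    simp only [P, Q, Matrix.smul_mul, Matrix.one_mul, Matrix.mul_smul, Matrix.mul_one,
      smul_sub, smul_smul, neg_mul, Matrix.mul_neg]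
    rw [show (X : B[X]) * X ^ (D + 1) = X ^ (D + 2) by ring,
      show (X : B[X]) ^ (D + 1) * X = X ^ (D + 2) by ring]
    abel
  have hHY : Hyp ι B[X] * Y = fromRows Q (-P) := KL_hyp_mul_fromRows P Q
  have hYH : Yᵀ * Hyp ι B[X] = -(fromRows Q (-P))ᵀ := by
    rw [← hHY, Matrix.transpose_mul, (KL_hyp_alt (κ := ι) (A := B[X])).1]
    simp
  have hcongr := KL_congr Φ (Hyp ι B[X]) Y
  rw [hform] at hcongr
  have hΦ' : IsAlt (Φ + -((X : B[X]) ^ (D + 2) • T.map C)) := by
    constructor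
    · have h1 := hΦ.1
      have h2 := hT.1
      rw [Matrix.transpose_add, Matrix.transpose_neg, Matrix.transpose_smul,
        ← Matrix.transpose_map, h1, h2]
      ext i j
      simp [add_comm]
    · intro i
      simp [hΦ.2 i, hT.2 i]
  refine ⟨fromBlocks 1 0 Y 1, E_blocks_lower Y, ?_, ?_, ?_⟩
  · rw [hcongr]
    exact KL_isAlt_blocks hΦ' KL_hyp_alt
  · rw [hcongr, hYH, hHY]
    have hQ : ∀ i j, (Q i j).natDegree ≤ D + 1 := by
      intro i j
      simp only [Q, Matrix.neg_apply, Matrix.smul_apply, Matrix.map_apply, natDegree_neg,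
        smul_eq_mul]
      refine natDegree_mul_le.trans ?_
      rw [natDegree_C, add_zero]
      exact natDegree_X_pow_le _
    have hP : ∀ i j, (P i j).natDegree ≤ D + 1 := by
      intro i j
      simp only [P, Matrix.smul_apply, smul_eq_mul, Matrix.one_apply]
      split_ifs
      · rw [mul_one]
        exact natDegree_X_le.trans (by omega)
      · simp
    rintro (i | i) (j | j)
    · rw [Matrix.fromBlocks_apply₁₁]
      rw [Polynomial.natDegree_le_iff_coeff_eq_zero]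
      intro k hk
      simp only [Matrix.add_apply, Matrix.neg_apply, Matrix.smul_apply, Matrix.map_apply,
        smul_eq_mul, coeff_add, coeff_neg, T]
      rw [mul_comm, Polynomial.coeff_C_mul_X_pow]
      rcases eq_or_lt_of_le (Nat.succ_le_of_lt hk) with h | h
      · rw [if_pos (by omega), show D + 2 = k by omega]
        ring
      · rw [if_neg (by omega), Polynomial.coeff_eq_zero_of_natDegree_lt]
        · ring
        · exact lt_of_le_of_lt (hD i j) (by omega)
    · rw [Matrix.fromBlocks_apply₁₂, Matrix.neg_apply, natDegree_neg, Matrix.transpose_apply]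
      rcases j with j | j
      · rw [Matrix.fromRows_apply_inl]; exact hQ _ _
      · rw [Matrix.fromRows_apply_inr, Matrix.neg_apply, natDegree_neg]; exact hP _ _
    · rw [Matrix.fromBlocks_apply₂₁]
      rcases i with i | i
      · rw [Matrix.fromRows_apply_inl]; exact hQ _ _
      · rw [Matrix.fromRows_apply_inr, Matrix.neg_apply, natDegree_neg]; exact hP _ _
    · rw [Matrix.fromBlocks_apply₂₂]
      rcases i with i | i <;> rcases j with j | j <;>
        simp [Hyp, Matrix.one_apply, apply_ite Polynomial.natDegree]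
  · have hε : (fromBlocks 1 0 Y 1 : Matrix (ι ⊕ (ι ⊕ ι)) (ι ⊕ (ι ⊕ ι)) B[X]).map
        (evalRingHom 0) = 1 := by
      rw [Matrix.fromBlocks_map, show (1 : Matrix (ι ⊕ (ι ⊕ ι)) (ι ⊕ (ι ⊕ ι)) B) =
        fromBlocks 1 0 0 1 from Matrix.fromBlocks_one.symm]
      congr 1
      · exact Matrix.map_one _ (map_zero _) (map_one _)
      · ext i j; simp
      · ext i j
        rcases i with i | i
        · simp [Y, P]
        · simp [Y, Q]
      · exact Matrix.map_one _ (map_zero _) (map_one _)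
    rw [Matrix.map_mul, Matrix.map_mul, Matrix.transpose_map, hε, Matrix.transpose_one,
      Matrix.one_mul, Matrix.mul_one, KL_dsum_map, KL_hyp_map]

end step

/-- rearrangement of the summands -/
def KL_equiv (ι κ : Type) : (ι ⊕ (ι ⊕ ι)) ⊕ (κ ⊕ κ) ≃ ι ⊕ ((ι ⊕ κ) ⊕ (ι ⊕ κ)) where
  toFun := Sum.elim (Sum.elim Sum.inl (Sum.elim (fun i => Sum.inr (Sum.inl (Sum.inl i)))
      (fun i => Sum.inr (Sum.inr (Sum.inl i)))))
    (Sum.elim (fun k => Sum.inr (Sum.inl (Sum.inr k))) (fun k => Sum.inr (Sum.inr (Sum.inr k))))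
  invFun := Sum.elim (fun i => Sum.inl (Sum.inl i))
    (Sum.elim (Sum.elim (fun i => Sum.inl (Sum.inr (Sum.inl i))) (fun k => Sum.inr (Sum.inl k)))
      (Sum.elim (fun i => Sum.inl (Sum.inr (Sum.inr i))) (fun k => Sum.inr (Sum.inr k))))
  left_inv := by rintro ((i | i | i) | (i | i)) <;> rfl
  right_inv := by rintro (i | (i | i) | (i | i)) <;> rfl

theorem KL_equiv_dsum {A : Type*} [CommRing A] {ι κ : Type} [Fintype ι] [DecidableEq ι] [Fintype κ]
    [DecidableEq κ] (Φ : Matrix ι ι A) :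
    (dsum Φ (Hyp (ι ⊕ κ) A)).submatrix (KL_equiv ι κ) (KL_equiv ι κ) =
      dsum (dsum Φ (Hyp ι A)) (Hyp κ A) := by
  ext a b
  rcases a with (a | a | a) | (a | a) <;> rcases b with (b | b | b) | (b | b) <;>
    simp [KL_equiv, dsum, Hyp, Matrix.one_apply]

theorem KL_reindex_dsum {A : Type*} [CommRing A] {ι κ κ' : Type} [Fintype ι] [DecidableEq ι]
    [Fintype κ] [DecidableEq κ] [Fintype κ'] [DecidableEq κ'] (e : κ ≃ κ') (Φ : Matrix ι ι A) :
    (dsum Φ (Hyp κ' A)).submatrix (Equiv.sumCongr (Equiv.refl ι) (Equiv.sumCongr e e))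
      (Equiv.sumCongr (Equiv.refl ι) (Equiv.sumCongr e e)) = dsum Φ (Hyp κ A) := by
  ext a b
  rcases a with a | a | a <;> rcases b with b | b | b <;>
    simp [dsum, Hyp, Matrix.one_apply]

theorem KL_submatrix_congr {A : Type*} [CommRing A] {ι κ : Type} [Fintype ι] [DecidableEq ι]
    [Fintype κ] [DecidableEq κ] (e : ι ≃ κ) (M : Matrix κ κ A) (ε : Matrix ι ι A) :
    (εᵀ * M.submatrix e e * ε).submatrix e.symm e.symm =
      (ε.submatrix e.symm e.symm)ᵀ * M * ε.submatrix e.symm e.symm := by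
  rw [← Matrix.submatrix_mul_equiv _ _ e.symm e.symm e.symm,
    ← Matrix.submatrix_mul_equiv _ _ e.symm e.symm e.symm, Matrix.submatrix_submatrix]
  simp [Matrix.transpose_submatrix]

/-- reduction to degree one -/
theorem KL_red {B : Type u} [CommRing B] (D : ℕ) : ∀ (ι : Type) [Fintype ι] [DecidableEq ι]
    (Φ : Matrix ι ι B[X]), IsAlt Φ → (∀ i j, (Φ i j).natDegree ≤ D + 1) →
    ∃ (κ : Type) (_ : Fintype κ) (_ : DecidableEq κ)
      (ε : Matrix (ι ⊕ (κ ⊕ κ)) (ι ⊕ (κ ⊕ κ)) B[X]), ε ∈ E (ι ⊕ (κ ⊕ κ)) B[X] ∧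
      (εᵀ * dsum Φ (Hyp κ B[X]) * ε)ᵀ = -(εᵀ * dsum Φ (Hyp κ B[X]) * ε) ∧
      (∀ i j, ((εᵀ * dsum Φ (Hyp κ B[X]) * ε) i j).natDegree ≤ 1) ∧
      (εᵀ * dsum Φ (Hyp κ B[X]) * ε).map (evalRingHom 0) =
        dsum (Φ.map (evalRingHom 0)) (Hyp κ B) := by
  induction D with
  | zero =>
    intro ι _ _ Φ hΦ hD
    refine ⟨Fin 0, inferInstance, inferInstance, 1, one_mem_E, ?_, ?_, ?_⟩
    · rw [Matrix.transpose_one, Matrix.one_mul, Matrix.mul_one]
      unfold dsum
      rw [Matrix.fromBlocks_transpose, Matrix.fromBlocks_neg, hΦ.1, KL_hyp_alt.1]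
      simp
    · rw [Matrix.transpose_one, Matrix.one_mul, Matrix.mul_one]
      rintro (i | i) (j | j)
      · simpa [dsum] using hD i j
      · exact (j.elim (fun k => k.elim0) (fun k => k.elim0))
      · exact (i.elim (fun k => k.elim0) (fun k => k.elim0))
      · exact (i.elim (fun k => k.elim0) (fun k => k.elim0))
    · rw [Matrix.transpose_one, Matrix.one_mul, Matrix.mul_one, KL_dsum_map, KL_hyp_map]
  | succ D ih =>
    intro ι _ _ Φ hΦ hD
    obtain ⟨ε₁, h1, h2, h3, h4⟩ := KL_step Φ hΦ D hD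
    obtain ⟨κ, i1, i2, ε₂, h5, h6, h7, h8⟩ := ih _ _ h2 h3
    let e := KL_equiv ι κ
    let ε₀ := dsum ε₁ (1 : Matrix (κ ⊕ κ) (κ ⊕ κ) B[X]) * ε₂
    have hε₀ : ε₀ ∈ E _ B[X] := E_mul (E_blocks_left h1) h5
    have key0 : ε₀ᵀ * dsum (dsum Φ (Hyp ι B[X])) (Hyp κ B[X]) * ε₀ =
        ε₂ᵀ * dsum (ε₁ᵀ * dsum Φ (Hyp ι B[X]) * ε₁) (Hyp κ B[X]) * ε₂ := by
      have h9 : (dsum ε₁ (1 : Matrix (κ ⊕ κ) (κ ⊕ κ) B[X]))ᵀ *
          dsum (dsum Φ (Hyp ι B[X])) (Hyp κ B[X]) * dsum ε₁ (1 : Matrix (κ ⊕ κ) (κ ⊕ κ) B[X]) =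
          dsum (ε₁ᵀ * dsum Φ (Hyp ι B[X]) * ε₁) (Hyp κ B[X]) := by
        generalize dsum Φ (Hyp ι B[X]) = Ψ
        unfold dsum
        rw [Matrix.fromBlocks_transpose, Matrix.fromBlocks_multiply, Matrix.fromBlocks_multiply]
        simp
      rw [← h9]
      simp only [ε₀, Matrix.transpose_mul, Matrix.mul_assoc]
    have key : (ε₀.submatrix e.symm e.symm)ᵀ * dsum Φ (Hyp (ι ⊕ κ) B[X]) *
        ε₀.submatrix e.symm e.symm =
        (ε₂ᵀ * dsum (ε₁ᵀ * dsum Φ (Hyp ι B[X]) * ε₁) (Hyp κ B[X]) * ε₂).submatrix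
          e.symm e.symm := by
      rw [← key0, ← KL_submatrix_congr e, KL_equiv_dsum]
    refine ⟨ι ⊕ κ, inferInstance, inferInstance, ε₀.submatrix e.symm e.symm,
      E_submatrix e.symm hε₀, ?_, ?_, ?_⟩
    · rw [key, Matrix.transpose_submatrix, h6]
      rfl
    · rw [key]
      intro i j
      exact h7 _ _
    · rw [key, ← Matrix.submatrix_map, h8, h4]
      rw [← KL_equiv_dsum, Matrix.submatrix_submatrix]
      simp [e]

theorem KL_isNilpotent {B : Type u} [CommRing B] {ι : Type} [Fintype ι] [DecidableEq ι]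
    (n : Matrix ι ι B) (G : Matrix ι ι B[X])
    (h : (1 + (X : B[X]) • n.map C) * G = 1) : IsNilpotent n := by
  classical
  have h0 : ∀ k, G.map (fun p => p.coeff (k + 1)) = -(n * G.map (fun p => p.coeff k)) := by
    intro k
    ext i j
    have h1 := congrArg (fun p : B[X] => p.coeff (k + 1)) (congrFun (congrFun h i) j)
    simp only [Matrix.add_mul, Matrix.one_mul, Matrix.smul_mul, Matrix.add_apply,
      Matrix.smul_apply, smul_eq_mul, coeff_add, coeff_X_mul] at h1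
    have h2 : ((1 : Matrix ι ι B[X]) i j).coeff (k + 1) = 0 := by
      rw [Matrix.one_apply]
      split_ifs
      · rw [Polynomial.coeff_one, if_neg (by omega)]
      · simp
    rw [h2, Matrix.mul_apply, Polynomial.finsetSum_coeff] at h1
    simp only [Matrix.map_apply, Matrix.neg_apply, Matrix.mul_apply, coeff_C_mul] at h1 ⊢
    exact eq_neg_of_add_eq_zero_left h1
  have h1 : G.map (fun p => p.coeff 0) = 1 := by
    ext i j
    have h1 := congrArg (fun p : B[X] => p.coeff 0) (congrFun (congrFun h i) j)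
    simp only [Matrix.add_mul, Matrix.one_mul, Matrix.smul_mul, Matrix.add_apply,
      Matrix.smul_apply, smul_eq_mul, coeff_add, mul_coeff_zero, coeff_X_zero, zero_mul,
      add_zero] at h1
    rw [Matrix.map_apply, h1, Matrix.one_apply, Matrix.one_apply]
    split_ifs <;> simp
  have h2 : ∀ k, G.map (fun p => p.coeff k) = (-n) ^ k := by
    intro k
    induction k with
    | zero => rw [h1, pow_zero]
    | succ k ih => rw [h0, ih, pow_succ', neg_mul]
  have h3 : ∃ K, ∀ i j, (G i j).natDegree < K := by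
    refine ⟨(∑ i, ∑ j, (G i j).natDegree) + 1, fun i j => Nat.lt_succ_of_le ?_⟩
    calc (G i j).natDegree ≤ ∑ j, (G i j).natDegree :=
          Finset.single_le_sum (f := fun j => (G i j).natDegree) (fun _ _ => Nat.zero_le _)
            (Finset.mem_univ j)
      _ ≤ _ := Finset.single_le_sum (f := fun i => ∑ j, (G i j).natDegree)
            (fun _ _ => Nat.zero_le _) (Finset.mem_univ i)
  obtain ⟨K, hK⟩ := h3
  have h4 : (-n) ^ K = 0 := by
    rw [← h2 K]
    ext i j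
    rw [Matrix.map_apply, Polynomial.coeff_eq_zero_of_natDegree_lt (hK i j)]
    rfl
  have h5 : IsNilpotent (-n) := ⟨K, h4⟩
  simpa using h5.neg

theorem KL : KL_stmt.{u} := by
  intro B _ ι _ _ Φ hΦ hdet
  classical
  have hD : ∃ D : ℕ, ∀ i j, (Φ i j).natDegree ≤ D + 1 := by
    refine ⟨∑ i, ∑ j, (Φ i j).natDegree, fun i j => Nat.le_succ_of_le ?_⟩
    calc (Φ i j).natDegree ≤ ∑ j, (Φ i j).natDegree :=
          Finset.single_le_sum (f := fun j => (Φ i j).natDegree) (fun _ _ => Nat.zero_le _)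
            (Finset.mem_univ j)
      _ ≤ _ := Finset.single_le_sum (f := fun i => ∑ j, (Φ i j).natDegree)
            (fun _ _ => Nat.zero_le _) (Finset.mem_univ i)
  obtain ⟨D, hD⟩ := hD
  obtain ⟨κ, i1, i2, ε₁, h1, h2, h3, h4⟩ := KL_red D ι Φ hΦ hD
  -- pass to `Fin r`
  obtain ⟨r, ε, hε, h2, h3, h4⟩ : ∃ (r : ℕ)
      (ε : Matrix (ι ⊕ (Fin r ⊕ Fin r)) (ι ⊕ (Fin r ⊕ Fin r)) B[X]),
      ε ∈ E (ι ⊕ (Fin r ⊕ Fin r)) B[X] ∧
      (εᵀ * dsum Φ (Hyp (Fin r) B[X]) * ε)ᵀ = -(εᵀ * dsum Φ (Hyp (Fin r) B[X]) * ε) ∧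
      (∀ i j, ((εᵀ * dsum Φ (Hyp (Fin r) B[X]) * ε) i j).natDegree ≤ 1) ∧
      (εᵀ * dsum Φ (Hyp (Fin r) B[X]) * ε).map (evalRingHom 0) =
        dsum (Φ.map (evalRingHom 0)) (Hyp (Fin r) B) := by
    let f := Fintype.equivFin κ
    let e : ι ⊕ (κ ⊕ κ) ≃ ι ⊕ (Fin (Fintype.card κ) ⊕ Fin (Fintype.card κ)) :=
      Equiv.sumCongr (Equiv.refl ι) (Equiv.sumCongr f f)
    have key : (ε₁.submatrix e.symm e.symm)ᵀ * dsum Φ (Hyp (Fin (Fintype.card κ)) B[X]) *
        ε₁.submatrix e.symm e.symm =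
        (ε₁ᵀ * dsum Φ (Hyp κ B[X]) * ε₁).submatrix e.symm e.symm := by
      rw [← KL_reindex_dsum f Φ]
      exact (KL_submatrix_congr e _ _).symm
    refine ⟨Fintype.card κ, ε₁.submatrix e.symm e.symm, E_submatrix e.symm h1, ?_, ?_, ?_⟩
    · rw [key, Matrix.transpose_submatrix, h2]
      rfl
    · rw [key]
      intro i j
      exact h3 _ _
    · rw [key, ← Matrix.submatrix_map, h4]
      rw [← KL_reindex_dsum f, Matrix.submatrix_submatrix]
      have h5 : ⇑(Equiv.sumCongr (Equiv.refl ι) (Equiv.sumCongr f f)) ∘ ⇑e.symm = id := by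
        funext x
        exact e.apply_symm_apply x
      rw [h5]
      rfl
  set Ψ := εᵀ * dsum Φ (Hyp (Fin r) B[X]) * ε with hΨ
  have hψ : dsum (Φ.map (Polynomial.eval 0)) (Hyp (Fin r) B) = Ψ.map (evalRingHom 0) := h4.symm
  set ψ := dsum (Φ.map (Polynomial.eval 0)) (Hyp (Fin r) B) with hψdef
  have hΨdet : IsUnit Ψ.det := by
    rw [hΨ, Matrix.det_mul, Matrix.det_mul, Matrix.det_transpose, det_of_mem_E hε, one_mul,
      mul_one, KL_dsum_det]
    exact hdet.mul KL_hyp_isUnit_det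
  have hψdet : IsUnit ψ.det := by
    rw [hψ]
    have := hΨdet.map (evalRingHom (0 : B))
    rwa [RingHom.map_det] at this
  let T : Matrix (ι ⊕ (Fin r ⊕ Fin r)) (ι ⊕ (Fin r ⊕ Fin r)) B := Ψ.map (fun p => p.coeff 1)
  have hψ0 : ψ = Ψ.map (fun p => p.coeff 0) := by
    rw [hψ]
    ext i j
    simp [Polynomial.coeff_zero_eq_eval_zero]
  have hsplit : Ψ = ψ.map C + (X : B[X]) • T.map C := by
    refine Matrix.ext fun i j => ?_
    rw [Matrix.add_apply, Matrix.smul_apply, Matrix.map_apply, Matrix.map_apply, smul_eq_mul,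
      hψ0, Matrix.map_apply]
    have h5 := Polynomial.eq_X_add_C_of_natDegree_le_one (h3 i j)
    have h6 : T i j = (Ψ i j).coeff 1 := rfl
    rw [h6]
    conv_lhs => rw [h5]
    ring
  have hTt : Tᵀ = -T := by
    ext i j
    have h5 := congrFun (congrFun h2 i) j
    simp only [T, Matrix.transpose_apply, Matrix.map_apply, Matrix.neg_apply] at h5 ⊢
    rw [h5, coeff_neg]
  have hψt : ψᵀ = -ψ := by
    rw [hψ0]
    ext i j
    have h5 := congrFun (congrFun h2 i) j
    simp only [Matrix.transpose_apply, Matrix.map_apply, Matrix.neg_apply] at h5 ⊢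
    rw [h5, coeff_neg]
  let n := ψ⁻¹ * T
  have hn : ψ * n = T := by
    rw [← Matrix.mul_assoc, Matrix.mul_nonsing_inv _ hψdet, Matrix.one_mul]
  have hfac : Ψ = ψ.map C * (1 + (X : B[X]) • n.map C) := by
    rw [Matrix.mul_add, Matrix.mul_one, Matrix.mul_smul, ← Matrix.map_mul, hn]
    exact hsplit
  refine ⟨r, ε, n, hε, ?_, ?_, ?_⟩
  · have h5 : (1 + (X : B[X]) • n.map C) * (Ψ⁻¹ * ψ.map C) = 1 := by
      have h6 : Ψ⁻¹ * ψ.map C * (1 + (X : B[X]) • n.map C) = 1 := by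
        rw [Matrix.mul_assoc, ← hfac, Matrix.nonsing_inv_mul _ hΨdet]
      exact mul_eq_one_comm.1 h6
    exact KL_isNilpotent n _ h5
  · have h5 : (ψ * n)ᵀ = -(ψ * n) := by rw [hn, hTt]
    rw [Matrix.transpose_mul, hψt, Matrix.mul_neg, neg_inj] at h5
    exact h5
  · exact hfac

end GB
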